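import Mathlib
import Pool.Agent.Lib.MP_153faa_pr.GCrit

/-! The truncated critical moment: the exact second-order term, and the critical trajectory with
the slope of the truncated moment made visible. -/

set_option autoImplicit false

open MeasureTheory Filter Topology
open scoped ENNReal NNReal

namespace Pool.Agent.Lib.MP_153faa_pr.CS

variable {d : ℕ}

/-- Approximate multiplicativity of one minus the normalised truncated moment. -/
theorem b_mul (hd : 3 ≤ d) {κ M : ℝ} (hκ : 0 < κ) : ∃ C₁ : ℝ, 1 ≤ C₁ ∧ ∀ η : ℝ, 0 < η →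
    ∃ C : ℝ, 1 ≤ C ∧
      ∀ (ρ : Measure ℝ≥0) [IsProbabilityMeasure ρ] (p l y z : ℝ), Ctx d κ M ρ p l → l ≤ C⁻¹ →
        OO d ρ p l ≠ ⊤ → Kr d ρ p l ≤ C⁻¹ → 0 ≤ y → 0 ≤ z → C₁ * (1 + z) * Kr d ρ p l ≤ 1 →
        |Br d ρ p l (y + z) - Br d ρ p l y -
          Br d ρ p l z * (1 - Kr d ρ p l * Br d ρ p l y)| ≤ η * z + C := by
  obtain ⟨Cc, hCc, hc1⟩ := gblin_core (M := M) hd hκ
  obtain ⟨Cr, hCr, hr⟩ := br_lin (M := M) hd hκ
  obtain ⟨Cd, hCd, hdy⟩ := dy_up (M := M) hd hκ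
  obtain ⟨C0, hC0, ht0⟩ := t0 (M := M) hd hκ
  have hrd : 1 ≤ Cr * Cd := one_le_mul_of_one_le_of_one_le hCr hCd
  refine ⟨Cc + Cr * Cd, by linarith, fun η hη => ?_⟩
  obtain ⟨C2, hC2, hc2⟩ := hc1 (η / C0) (by positivity)
  have h20 : 1 ≤ C2 * C0 := one_le_mul_of_one_le_of_one_le hC2 hC0
  have h21 : C2 ≤ C2 * C0 := le_mul_of_one_le_right (by linarith) hC0
  refine ⟨C2 * C0 + 4 * Cr + Cd + 8 * C0, by linarith, ?_⟩
  intro ρ _ p l y z hc hl hO hK hy hz hz1
  have hd1 : 1 ≤ d := by omega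
  obtain ⟨hp1, hp2⟩ := hc.one_lt hd
  have hm := hc.good.1
  have hK0 : 0 ≤ Kr d ρ p l := Kr_nonneg
  have hr2 := hr ρ p l hc (gblin_inv hl hCr (by linarith)) hO
  obtain ⟨-, y0, y1, -, -⟩ := hr2 y hy
  obtain ⟨-, z0, z1, z2, -⟩ := hr2 z hz
  have hηz : 0 ≤ η * z := by positivity
  have hs0 : 0 ≤ Br d ρ p l z * Kr d ρ p l := by positivity
  have hs1 : Br d ρ p l z * Kr d ρ p l ≤ 1 := by
    refine le_trans (mul_le_mul_of_nonneg_right (z1.trans ?_) hK0) hz1
    refine mul_le_mul_of_nonneg_right ?_ (by linarith)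
    nlinarith
  have hsy0 := mul_nonneg hs0 y0
  have hsy1 := mul_le_of_le_one_left y0 hs1
  rcases lt_or_ge y 1 with hy1 | hy1
  · obtain ⟨z3, z4⟩ := z2 (y + z) (by linarith)
    have h2 : Cr * (1 + y) ≤ Cr * 2 := mul_le_mul_of_nonneg_left (by linarith) (by linarith)
    rw [show 1 + (y + z) - z = 1 + y by ring] at z4
    rw [abs_le]
    constructor <;> linarith
  set t := Real.exp y with ht
  have ht2 : 2 ≤ t := by
    have := Real.add_one_le_exp y
    linarith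
  have ht0' : 0 < t := by linarith
  have hS := measurableSet_lev (d := d) t
  have hδ : Nice (dlt (0 : Site d)) := nice_dlt 0
  have hmr : mr (dlt (0 : Site d)) = 1 := by rw [mr, mass_dlt, ENNReal.toReal_one]
  have hmq : mq p (dlt (0 : Site d)) = 1 := by rw [mq, mass_dlt, ENNReal.one_rpow]
  obtain ⟨-, a1, a2⟩ := ht0 ρ p l hc (gblin_inv hl hC0 (by linarith)) hO _ t hδ ht0'
    (by rw [hmr]; linarith)
  have a3 := hdy ρ p l hc (gblin_inv hl hCd (by linarith)) hO _ y hδ hy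
  rw [hmr, Real.one_rpow, mul_one, U_split hS (measurable_mq 2) (measurable_mq 2)] at a2
  rw [hmq, mul_one] at a1
  rw [hmr, hmq, mul_one, mul_one, U_split hS (measurable_mq p) (measurable_mq p)] at a3
  have hC0t : 0 ≤ C0 * t ^ (2 - p) := by positivity
  have n2e := ne_top_of_le_ne_top ENNReal.ofReal_ne_top (le_self_add.trans a2)
  have n2k := ne_top_of_le_ne_top ENNReal.ofReal_ne_top (le_add_self.trans a2)
  have npe := ne_top_of_le_ne_top ENNReal.ofReal_ne_top a1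
  have r2e := ENNReal.toReal_le_of_le_ofReal hC0t (le_self_add.trans a2)
  have r2k := ENNReal.toReal_le_of_le_ofReal hC0t (le_add_self.trans a2)
  have rpe := ENNReal.toReal_le_of_le_ofReal (by linarith) a1
  have rpk := ENNReal.toReal_le_of_le_ofReal (by positivity) (le_add_self.trans a3)
  have hHT : ∀ L : ℝ, 0 ≤ L → HT ρ p l L (dlt (0 : Site d)) ≠ ⊤ := fun L hL =>
    ne_top_of_le_ne_top hO (HT_le_HH hp1 hL _)
  obtain ⟨nH, npk, sH⟩ := gblin_split (ρ := ρ) hS hc.l0 hc.l1 (measurable_mq p) hO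
  obtain ⟨nT, nt, sT⟩ := gblin_split (ρ := ρ) hS hc.l0 hc.l1 (gblin_mth p t) (hHT t ht0'.le)
  have hM0 : 0 < Real.exp z * t := by positivity
  have hMt : t ≤ Real.exp z * t := le_mul_of_one_le_left ht0'.le (Real.one_le_exp hz)
  obtain ⟨nT', nt', sT'⟩ := gblin_split (ρ := ρ) hS hc.l0 hc.l1 (gblin_mth p (Real.exp z * t))
    (hHT _ hM0.le)
  have core := hc2 ρ p l z hc (gblin_inv hl hC2 (by linarith)) hO (gblin_inv hK hC2 (by linarith))
    hz (le_trans (by gcongr; linarith) hz1) t t _ ht0' le_rfl hδ nT' nH n2e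
  have htp : 0 ≤ t ^ (p - 2) := by positivity
  have hone : t ^ (p - 2) * t ^ (2 - p) = 1 := by
    rw [← Real.rpow_add ht0']
    simp
  have hone' : t ^ (p - 2) * (C0 * t ^ (2 - p)) = C0 := by
    rw [mul_left_comm, hone, mul_one]
  -- killed parts
  have kill : ∀ L : ℝ, t ≤ L →
      U ρ l (lev d t) (fun _ => 0) (fun g => lift (th p L) (mass g)) (dlt (0 : Site d)) ≠ ⊤ →
      (U ρ l (lev d t) (fun _ => 0) (fun g => lift (th p L) (mass g)) (dlt (0 : Site d))).toReal ≤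
        (U ρ l (lev d t) (fun _ => 0) (mq p) (dlt (0 : Site d))).toReal ∧
      (U ρ l (lev d t) (fun _ => 0) (mq p) (dlt (0 : Site d))).toReal ≤
        (U ρ l (lev d t) (fun _ => 0) (fun g => lift (th p L) (mass g)) (dlt (0 : Site d))).toReal +
          C0 := by
    intro L hL nL
    have hL0 : 0 < L := ht0'.trans_le hL
    constructor
    · refine ENNReal.toReal_mono npk (U_mono hd1 (fun _ _ _ => le_rfl) (fun g hg _ => ?_) hδ)
      rw [gblin_th hg, gblin_mq hg (by linarith)]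
      exact ENNReal.ofReal_le_ofReal (th_le_pow hp1 hL0.le (gblin_mr g))
    · have := gblin_real zero_le_one htp nL n2k
        (gblin_U2 (ρ := ρ) (l := l) (F := fun _ => 0) (R := mq p) hd1 hS measurable_const
          (gblin_mth p L) measurable_const (measurable_mq 2) _ _ (fun _ _ _ => zero_le)
          (fun g hg _ => ?_) hδ)
      · have h3 := mul_le_mul_of_nonneg_left r2k htp
        rw [hone'] at h3
        linarith
      · have hg0 := gblin_mr g
        rw [gblin_th hg, gblin_mq hg (by linarith), gblin_mq hg (by norm_num), ENNReal.ofReal_one,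
          one_mul, ← ENNReal.ofReal_mul htp,
          ← ENNReal.ofReal_add (th_nonneg hp1 hp2.le hL0.le hg0) (by positivity)]
        apply ENNReal.ofReal_le_ofReal
        have h3 := pow_le_th hp1 hp2.le hL0 hg0
        have h4 : L ^ (p - 2) ≤ t ^ (p - 2) := Real.rpow_le_rpow_of_nonpos ht0' hL (by linarith)
        have h5 := mul_le_mul_of_nonneg_left h4 (sq_nonneg (mr g))
        rw [Real.rpow_two]
        linarith
  obtain ⟨k1, k2⟩ := kill t le_rfl nt
  obtain ⟨k3, k4⟩ := kill _ hMt nt'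
  -- exit part at the level itself
  have ex : (U ρ l (lev d t) (HT ρ p l t) (fun _ => 0) (dlt (0 : Site d))).toReal ≤ 2 * C0 := by
    have := gblin_real1 zero_le_two npe
      (gblin_U1 (ρ := ρ) (l := l) (F := HT ρ p l t) (R := fun _ => 0) hd1 hS (measurable_mq p)
        measurable_const _ (fun g hg hgS => ?_) (fun _ _ _ => zero_le) hδ)
    · linarith
    · have hx : t ≤ mr g := (gloc1_on hg).1 hgS
      have hx0 : 0 < mr g := ht0'.trans_le hx
      refine (HT_le_lin hd1 hm hp1 hp2.le hc.l0 hc.l1 ht0' g).trans ?_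
      rw [gblin_mq hg (by linarith), ← hg.ofReal_mr, ← ENNReal.ofReal_mul (by positivity),
        ← ENNReal.ofReal_mul zero_le_two]
      apply ENNReal.ofReal_le_ofReal
      have h3 : t ^ (p - 1) ≤ mr g ^ (p - 1) := Real.rpow_le_rpow ht0'.le hx (by linarith)
      have h4 : mr g ^ p = mr g ^ (p - 1) * mr g := by
        rw [← Real.rpow_add_one hx0.ne']
        congr 1
        ring
      have h5 : 0 ≤ t ^ (p - 1) := by positivity
      rw [h4, ← mul_assoc]
      exact mul_le_mul_of_nonneg_right (mul_le_mul hp2.le h3 h5 zero_le_two) hx0.le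
  have eyz : Br d ρ p l (y + z) = (HT ρ p l (Real.exp z * t) (dlt (0 : Site d))).toReal := by
    rw [Br, ht, ← Real.exp_add, add_comm]
  have hKO := gblin_KO hd1 hm hp1.le hc.l0 hc.l1 hO
  change (OO d ρ p l).toReal = (U ρ l (lev d t) (HH ρ p l) (fun _ => 0) _).toReal + _ at sH
  change Br d ρ p l y = (U ρ l (lev d t) (HT ρ p l t) (fun _ => 0) _).toReal + _ at sT
  change (HT ρ p l (Real.exp z * t) _).toReal =
    (U ρ l (lev d t) (HT ρ p l (Real.exp z * t)) (fun _ => 0) _).toReal + _ at sT'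
  rw [← eyz] at sT'
  have e0 : 0 ≤ (U ρ l (lev d t) (HT ρ p l t) (fun _ => 0) (dlt (0 : Site d))).toReal :=
    ENNReal.toReal_nonneg
  have u0 : 0 ≤ (U ρ l (lev d t) (fun _ => 0) (mq p) (dlt (0 : Site d))).toReal :=
    ENNReal.toReal_nonneg
  generalize (U ρ l (lev d t) (HH ρ p l) (fun _ => 0) (dlt (0 : Site d))).toReal = EH at *
  generalize (U ρ l (lev d t) (HT ρ p l t) (fun _ => 0) (dlt (0 : Site d))).toReal = ET at *
  generalize (U ρ l (lev d t) (HT ρ p l (Real.exp z * t)) (fun _ => 0)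
    (dlt (0 : Site d))).toReal = EM at *
  generalize (U ρ l (lev d t) (fun _ => 0) (mq p) (dlt (0 : Site d))).toReal = u at *
  generalize (U ρ l (lev d t) (mq 2) (fun _ => 0) (dlt (0 : Site d))).toReal = E2 at *
  have c1 : (η / C0 * z + C2) * t ^ (p - 2) * E2 ≤ η * z + C2 * C0 := by
    have h3 : t ^ (p - 2) * E2 ≤ C0 := by
      have := mul_le_mul_of_nonneg_left r2e htp
      rwa [hone'] at this
    have h4 : 0 ≤ η / C0 * z + C2 := by positivity
    calc (η / C0 * z + C2) * t ^ (p - 2) * E2 = (η / C0 * z + C2) * (t ^ (p - 2) * E2) := by ring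
      _ ≤ (η / C0 * z + C2) * C0 := mul_le_mul_of_nonneg_left h3 h4
      _ = η * z + C2 * C0 := by field_simp
  have c2 : Br d ρ p l z * Kr d ρ p l * EH = Br d ρ p l z - Br d ρ p l z * Kr d ρ p l * u := by
    rw [sH] at hKO
    linear_combination Br d ρ p l z * hKO
  have c3 := mul_le_of_le_one_left (show 0 ≤ Br d ρ p l y - u + C0 by linarith) hs1
  have c4 := mul_le_of_le_one_left (show 0 ≤ 2 * C0 - (Br d ρ p l y - u) by linarith) hs1
  have c6 := mul_nonneg hs0 (show 0 ≤ C0 by linarith)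
  have c7 := mul_le_of_le_one_left (show 0 ≤ C0 by linarith) hs1
  have c8 := mul_nonneg hs0 (show 0 ≤ Br d ρ p l y - u + C0 by linarith)
  have c9 := mul_nonneg hs0 (show 0 ≤ 2 * C0 - (Br d ρ p l y - u) by linarith)
  have c5 := abs_le.1 (core.trans c1)
  rw [abs_le]
  constructor <;> linarith [c5.1, c5.2]

/-- The critical trajectory and the slope of the truncated moment. -/
theorem pack (hd : 3 ≤ d) {ν : Measure ℝ} [IsProbabilityMeasure ν]
    (hν : ∀ β : ℝ, Integrable (fun t => Real.exp (β * t)) ν)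
    (hne : ∃ β : ℝ, 0 ≤ β ∧ freeEnergy d ν β < 0) {κ M ε₀ : ℝ} (hκ : 0 < κ) (hε : 0 < ε₀)
    (h3 : 3 * ε₀ ≤ betaC d ν)
    (hG : ∀ β ∈ Set.Icc (betaC d ν - ε₀) (betaC d ν + ε₀), Good d κ M (rho ν β)) :
    ∃ (b C : ℝ), 0 < b ∧
      (∀ σ : ℝ, 0 < σ → OO d (rho ν (betaC d ν)) (q0 d) (Real.exp (-σ)) ≠ ⊤) ∧
      Tendsto (fun σ => σ * kk d (rho ν (betaC d ν)) σ) atTop (𝓝 (2 / (b * d / 2))) ∧
      ∀ η : ℝ, 0 < η → ∃ D σ₀ : ℝ, BUp d (rho ν (betaC d ν)) b η D C σ₀ ∧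
        BLow d (rho ν (betaC d ν)) b η D C σ₀ := by
  obtain ⟨hbc, hno⟩ := no_dec hd hν hne
  have hd1 : 1 ≤ d := by omega
  have hd3 : (3 : ℝ) ≤ d := by exact_mod_cast hd
  have hGc : Good d κ M (rho ν (betaC d ν)) := hG _ ⟨by linarith, by linarith⟩
  have h1 := ap1 hd hν hne hκ hε hG
  have h2 := ap2 hd hκ hGc hno
  have hr := fun a => reg_kk hd1 hGc.1 a
  have hpos : ∀ σ : ℝ, 0 < σ → 0 < kk d (rho ν (betaC d ν)) σ := by
    intro σ hσ
    obtain ⟨τ, hτ, h⟩ := h2 σ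
    exact ((Real.exp_pos _).trans_le h).trans_le ((hr 0).2.1 hσ (hσ.trans_le hτ) hτ)
  have hfin : ∀ σ : ℝ, 0 < σ → OO d (rho ν (betaC d ν)) (q0 d) (Real.exp (-σ)) ≠ ⊤ := by
    intro σ hσ h
    have := hpos σ hσ
    simp [kk, Kr, KK, h] at this
  have hk : Tendsto (kk d (rho ν (betaC d ν))) atTop (𝓝 0) :=
    squeeze_zero' (Eventually.of_forall (hr 0).2.2.1) h1 (tendsto_rpow_neg_atTop (by norm_num))
  obtain ⟨b, C₀, hb, hC₀, Hb⟩ := b_crit hd hν hκ hε (by linarith) hG hfin hk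
  obtain ⟨a₀, Hi⟩ := iface (M := M) hd hκ
  obtain ⟨a₀', C₁, hC₁, Hf⟩ := fl_flow (M := M) hd hκ
  set a := a₀ + a₀' with ha
  obtain ⟨C, hC, Hi⟩ := Hi a (by omega) b C₀ hb hC₀
  obtain ⟨σf, hσf, Hf⟩ := Hf a (by omega)
  have key : ∀ η : ℝ, 0 < η → ∃ σ₀ ε₁ : ℝ, 1 ≤ σ₀ ∧ 0 < ε₁ ∧ ε₁ ≤ ε₀ ∧
      FlowL (b * d / 2) C η σ₀ (kk d (rho ν (betaC d ν))) (gg d (rho ν (betaC d ν)) a) ∧
      ∀ β ∈ Set.Icc (betaC d ν - ε₁) (betaC d ν + ε₁),
        FlowU (b * d / 2) C η σ₀ (kk d (rho ν β)) (gg d (rho ν β) a) := by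
    intro η hη
    obtain ⟨η₁, hη₁, Hi⟩ := Hi η hη
    obtain ⟨D, σb, ε₁, hε₁, hε₁', Hup, Hlow⟩ := Hb η₁ hη₁
    obtain ⟨σ₀, k₀, hσ₀, hk₀, Hi⟩ := Hi D
    obtain ⟨σ₁, h3, h4, h5⟩ := ((hk.eventually (gt_mem_nhds hk₀)).and
      ((eventually_ge_atTop σ₀).and (eventually_ge_atTop σb))).exists
    have hσ₁ : 0 < σ₁ := by linarith
    have hq : 1 ≤ q0 d := by
      rw [q0]
      exact le_add_of_nonneg_right (by positivity)
    have hc : ContinuousAt (fun β => kk d (rho ν β) σ₁) (betaC d ν) := by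
      have c1 := OO_cont hd1 hν hq (Real.exp_pos (-σ₁))
        (Real.exp_lt_one_iff.2 (by linarith)) (hfin σ₁ hσ₁)
      refine ContinuousAt.comp (g := ENNReal.toReal) (ENNReal.continuousAt_toReal ?_) c1.inv
      intro h
      have := hpos σ₁ hσ₁
      rw [kk, Kr, h] at this
      simp at this
    obtain ⟨ε₂, hε₂, h6⟩ := Metric.eventually_nhds_iff.1 (hc.eventually (gt_mem_nhds h3))
    refine ⟨4 * d * σ₁, min ε₁ (ε₂ / 2), by nlinarith, by positivity,
      (min_le_left _ _).trans hε₁', (Hi _ σ₁ hGc h4 h3.le).2 fun σ hσ => Hup σ (h5.trans hσ),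
      fun β hβ => ?_⟩
    have m1 := min_le_left ε₁ (ε₂ / 2)
    have m2 := min_le_right ε₁ (ε₂ / 2)
    refine (Hi _ σ₁ (hG β ⟨by linarith [hβ.1], by linarith [hβ.2]⟩) h4 (h6 ?_).le).1
      fun σ hσ => Hlow β ⟨by linarith [hβ.1], by linarith [hβ.2]⟩ σ (h5.trans hσ)
    rw [Real.dist_eq, abs_lt]
    constructor <;> linarith [hβ.1, hβ.2]
  have hb' : 0 < b * d / 2 := by positivity
  have hsm : ∀ᶠ σ in atTop, C₁ * kk d (rho ν (betaC d ν)) σ ^ 2 < 1 := by
    have := (hk.pow 2).const_mul C₁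
    exact this.eventually (gt_mem_nhds (by simp))
  obtain ⟨σ₅, h5⟩ := eventually_atTop.1 (h1.and (hsm.and (eventually_ge_atTop σf)))
  obtain ⟨o1, -⟩ := ode_crit hb' (hC.trans (le_max_left C C₁)) (hr a)
    (fun η hη => by
      obtain ⟨σ₀, ε₁, s1, s2, -, -, s3⟩ := key η hη
      exact ⟨σ₀, gcrit_flowU (hr a) (le_max_left _ _) (by linarith)
        (s3 _ ⟨by linarith, by linarith⟩)⟩)
    (fun η hη => by
      obtain ⟨σ₀, ε₁, -, -, -, s3, -⟩ := key η hη
      exact ⟨σ₀, gcrit_flowL (hr a) (le_max_left _ _) s3⟩)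
    ⟨σ₅, fun σ hσ he => by
      obtain ⟨s1, s2, s3⟩ := h5 σ hσ
      have hσ1 : 1 ≤ σ := hσf.trans s3
      have hk0 := (hr a).2.2.1 σ
      have s4 : gg d (rho ν (betaC d ν)) a σ ≤ C₁ * kk d (rho ν (betaC d ν)) σ ^ 2 :=
        not_lt.1 fun hlt => hno _ (Hf _ σ _ hGc s3 he
          (s1.trans (Real.rpow_le_rpow_of_exponent_le hσ1 (by norm_num))) s2.le hlt.le le_rfl)
      refine s4.trans (mul_le_mul (le_max_right _ _) (le_add_of_nonneg_right (by positivity))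
        (sq_nonneg _) (by linarith [le_max_left C C₁]))⟩ h1 h2
  refine ⟨b, C₀, hb, hfin, o1, fun η hη => ?_⟩
  obtain ⟨D, σ₀, ε₁, s1, -, s2, s3⟩ := Hb η hη
  exact ⟨D, σ₀, s2, s3 _ ⟨by linarith, by linarith⟩⟩

end Pool.Agent.Lib.MP_153faa_pr.CS
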