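import Mathlib

/-! Two lemmas of real analysis: an approximately multiplicative function has an exponential
scaling limit, and a Tauberian step from geometric to fixed times. -/

set_option autoImplicit false

open Filter Topology

namespace Pool.Agent.Lib.MP_153faa_pr.CS

theorem iter_mul {R : ℝ → ℝ} {z e e₀ : ℝ} (hz : 0 ≤ z) (h0 : |R 0 - 1| ≤ e₀) (r0 : 0 ≤ R z)
    (r1 : R z ≤ 1) (h : ∀ y, 0 ≤ y → |R (y + z) - R y * R z| ≤ e) (j : ℕ) :
    |R (j * z) - R z ^ j| ≤ j * e + e₀ := by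
  induction j with
  | zero => simpa using h0
  | succ j ih =>
    have h1 := h (j * z) (by positivity)
    have h2 : |R z * (R (j * z) - R z ^ j)| ≤ j * e + e₀ := by
      rw [abs_mul, abs_of_nonneg r0]
      exact (mul_le_of_le_one_left (abs_nonneg _) r1).trans ih
    have e1 : ((j + 1 : ℕ) : ℝ) * z = j * z + z := by push_cast; ring
    have e2 : R (j * z + z) - R z ^ (j + 1) =
        (R (j * z + z) - R (j * z) * R z) + R z * (R (j * z) - R z ^ j) := by ring
    rw [e1, e2]
    refine (abs_add_le _ _).trans ?_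
    push_cast
    linarith

theorem pow_lip {u v : ℝ} (u0 : 0 ≤ u) (u1 : u ≤ 1) (v0 : 0 ≤ v) (v1 : v ≤ 1) (m : ℕ) :
    |u ^ m - v ^ m| ≤ m * |u - v| := by
  refine (abs_pow_sub_pow_le u v m).trans ?_
  have : max |u| |v| ^ (m - 1) ≤ 1 := by
    refine pow_le_one₀ (le_max_of_le_left (abs_nonneg _)) (max_le ?_ ?_)
    · rwa [abs_of_nonneg u0]
    · rwa [abs_of_nonneg v0]
  rw [mul_comm (m : ℝ)]
  exact mul_le_of_le_one_right (by positivity) this

/-- The exponential scaling limit. -/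
theorem scale {k : ℝ → ℝ} {B : ℝ → ℝ → ℝ} {b r C₀ C₁ : ℝ} (hb : 0 < b) (hr : 0 < r)
    (hk : Tendsto (fun σ => σ * k σ) atTop (𝓝 r))
    (k0 : ∀ σ, 0 ≤ k σ)
    (h01 : ∀ᶠ σ in atTop, ∀ y, 0 ≤ k σ * B σ y ∧ k σ * B σ y ≤ 1)
    (hmul : ∀ η, 0 < η → ∃ C, ∀ᶠ σ in atTop, ∀ y z, 0 ≤ y → 0 ≤ z → C₁ * (1 + z) * k σ ≤ 1 →
      |B σ (y + z) - B σ y - B σ z * (1 - k σ * B σ y)| ≤ η * z + C)
    (hlin : ∀ η, 0 < η → ∃ D, ∀ᶠ σ in atTop, ∀ y, 0 ≤ y → C₀ * y * k σ ≤ 1 →
      |B σ y - b * y| ≤ η * y + D + C₀ * k σ * y ^ 2) {x : ℝ} (hx : 0 ≤ x) :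
    Tendsto (fun σ => k σ * B σ (x * σ)) atTop (𝓝 (1 - Real.exp (-(r * b * x)))) := by
  have hk0 : Tendsto k atTop (𝓝 0) := by
    have := hk.div_atTop tendsto_id
    refine this.congr' ?_
    filter_upwards [eventually_gt_atTop 0] with σ hσ
    simp only [id]
    field_simp
  refine Metric.tendsto_nhds.2 fun ε hε => ?_
  have t1 := Real.tendsto_one_add_div_pow_exp (-(r * b * x))
  have t2 : ∀ A : ℝ, Tendsto (fun m : ℕ => A / m) atTop (𝓝 0) := fun A =>
    tendsto_const_div_atTop_nhds_zero_nat A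
  obtain ⟨m, m1, m2, m3, m4, m5, m6⟩ := (((Metric.tendsto_nhds.1 t1) (ε / 4) (by positivity)).and
    (((t2 (C₀ * r ^ 2 * x ^ 2)).eventually (gt_mem_nhds (show 0 < ε / 4 by positivity))).and
    (((t2 (r * b * x)).eventually (gt_mem_nhds one_pos)).and
    (((t2 (C₀ * x * r)).eventually (gt_mem_nhds one_pos)).and
    (((t2 (C₁ * x * r)).eventually (gt_mem_nhds one_pos)).and (eventually_ge_atTop 1)))))).exists
  have m0 : (0 : ℝ) < m := by exact_mod_cast m6
  obtain ⟨η, hη⟩ : ∃ η : ℝ, η = ε / (8 * (r * x + 1)) := ⟨_, rfl⟩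
  have η0 : 0 < η := by rw [hη]; positivity
  have ηx : 2 * (r * x * η) ≤ ε / 4 := by
    have : η * (8 * (r * x + 1)) = ε := by rw [hη]; field_simp
    linarith
  obtain ⟨C, hC⟩ := hmul η η0
  obtain ⟨D, hD⟩ := hlin η η0
  obtain ⟨δ, hδ⟩ : ∃ δ : ℝ, δ = x / m := ⟨_, rfl⟩
  have δ0 : 0 ≤ δ := by rw [hδ]; positivity
  have hmδ : m * δ = x := by rw [hδ]; field_simp
  have t3 : Tendsto (fun σ => m * (η * δ * (σ * k σ) + C * k σ) + D * k σ +
      m * (|r * b * δ - b * δ * (σ * k σ)| +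
        (η * δ * (σ * k σ) + D * k σ + C₀ * δ ^ 2 * (σ * k σ) ^ 2))) atTop
      (𝓝 (m * (η * δ * r + C * 0) + D * 0 + m * (|r * b * δ - b * δ * r| +
        (η * δ * r + D * 0 + C₀ * δ ^ 2 * r ^ 2)))) :=
    ((((hk.const_mul _).add (hk0.const_mul _)).const_mul _).add (hk0.const_mul _)).add
      (((((hk.const_mul _).const_sub _).abs).add
        (((hk.const_mul _).add (hk0.const_mul _)).add ((hk.pow 2).const_mul _))).const_mul _)
  have v3 : m * (η * δ * r + C * 0) + D * 0 + m * (|r * b * δ - b * δ * r| +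
      (η * δ * r + D * 0 + C₀ * δ ^ 2 * r ^ 2)) < 3 * (ε / 4) := by
    have e1 : r * b * δ - b * δ * r = 0 := by ring
    have e2 : m * (C₀ * δ ^ 2 * r ^ 2) = C₀ * r ^ 2 * x ^ 2 / m := by
      rw [hδ]; field_simp
    have e3 : m * (η * δ * r) = r * x * η := by rw [← hmδ]; ring
    rw [e1, abs_zero]
    linarith
  have t4 : Tendsto (fun σ => C₀ * δ * (σ * k σ)) atTop (𝓝 (C₀ * δ * r)) := hk.const_mul _
  have v4 : C₀ * δ * r < 1 := lt_of_eq_of_lt (by rw [hδ]; ring) m4
  have t5 : Tendsto (fun σ => C₁ * k σ + C₁ * δ * (σ * k σ)) atTop (𝓝 (C₁ * 0 + C₁ * δ * r)) :=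
    (hk0.const_mul _).add (hk.const_mul _)
  have v5 : C₁ * 0 + C₁ * δ * r < 1 := lt_of_eq_of_lt (by rw [hδ]; ring) m5
  filter_upwards [h01, hC, hD, t3.eventually (gt_mem_nhds v3), t4.eventually (gt_mem_nhds v4),
    t5.eventually (gt_mem_nhds v5), eventually_ge_atTop 0] with σ a1 a2 a3 a4 a5 a6 a7
  have z0 : 0 ≤ δ * σ := by positivity
  have K0 := k0 σ
  have b0 := a3 0 le_rfl (by simp)
  have b1 := a3 (δ * σ) z0 (by linarith)
  have i1 := iter_mul (R := fun y => 1 - k σ * B σ y) (e := k σ * (η * (δ * σ) + C))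
    (e₀ := k σ * D) z0
    (by
      have e : 1 - k σ * B σ 0 - 1 = -(k σ * (B σ 0 - b * 0)) := by ring
      rw [e, abs_neg, abs_mul, abs_of_nonneg K0]
      exact mul_le_mul_of_nonneg_left (by simpa using b0) K0)
    (by linarith [(a1 (δ * σ)).2]) (by linarith [(a1 (δ * σ)).1])
    (fun y hy => by
      have e : 1 - k σ * B σ (y + δ * σ) - (1 - k σ * B σ y) * (1 - k σ * B σ (δ * σ)) =
          -(k σ * (B σ (y + δ * σ) - B σ y - B σ (δ * σ) * (1 - k σ * B σ y))) := by ring
      rw [e, abs_neg, abs_mul, abs_of_nonneg K0]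
      exact mul_le_mul_of_nonneg_left (a2 y _ hy z0 (by linarith)) K0) m
  have e4 : (m : ℝ) * (δ * σ) = x * σ := by rw [← hmδ]; ring
  rw [e4] at i1
  have e5 : 1 + -(r * b * x) / m = 1 - r * b * δ := by rw [hδ]; ring
  have w0 : 0 ≤ r * b * δ := by positivity
  have w1 : r * b * δ < 1 := lt_of_eq_of_lt (by rw [hδ]; ring) m3
  have i2 := pow_lip (u := 1 - k σ * B σ (δ * σ)) (v := 1 - r * b * δ)
    (by linarith [(a1 (δ * σ)).2]) (by linarith [(a1 (δ * σ)).1]) (by linarith) (by linarith) m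
  have i3 : |1 - k σ * B σ (δ * σ) - (1 - r * b * δ)| ≤ |r * b * δ - b * δ * (σ * k σ)| +
      (η * δ * (σ * k σ) + D * k σ + C₀ * δ ^ 2 * (σ * k σ) ^ 2) := by
    have e : 1 - k σ * B σ (δ * σ) - (1 - r * b * δ) =
        (r * b * δ - b * δ * (σ * k σ)) + -(k σ * (B σ (δ * σ) - b * (δ * σ))) := by ring
    rw [e]
    refine (abs_add_le _ _).trans (add_le_add le_rfl ?_)
    rw [abs_neg, abs_mul, abs_of_nonneg K0]
    exact (mul_le_mul_of_nonneg_left b1 K0).trans_eq (by ring)
  have i4 := mul_le_mul_of_nonneg_left i3 m0.le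
  rw [e5, Real.dist_eq] at m1
  rw [Real.dist_eq]
  have i5 := abs_le.1 i1
  have i6 := abs_le.1 (i2.trans i4)
  have i7 := abs_lt.1 m1
  rw [abs_lt]
  constructor <;> linarith [i5.1, i5.2, i6.1, i6.2, i7.1, i7.2]

theorem tlog : Tendsto (fun n : ℕ => Real.log n) atTop atTop :=
  Real.tendsto_log_atTop.comp tendsto_natCast_atTop_atTop

theorem nexp (t : ℝ) : ∀ᶠ n : ℕ in atTop,
    Real.exp ((1 - t) * Real.log n) = n * Real.exp (-(t * Real.log n)) := by
  filter_upwards [eventually_gt_atTop 0] with n hn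
  have : (0 : ℝ) < n := by exact_mod_cast hn
  rw [show (1 - t) * Real.log n = Real.log n + -(t * Real.log n) by ring, Real.exp_add,
    Real.exp_log this]

/-- From geometric times to fixed times. -/
theorem taub {u : ℕ → ℝ} {F : ℝ → ℝ → ℝ} {O φ : ℝ → ℝ} {c x : ℝ} (hx : 0 ≤ x)
    (hφ : Continuous φ) (hO : Tendsto (fun σ => O σ / σ) atTop (𝓝 c))
    (hF : ∀ s, 0 ≤ s → Tendsto (fun σ => F σ (s * σ) / σ) atTop (𝓝 (φ s)))
    (h1 : ∀ (n : ℕ) σ, 0 < σ → (1 - Real.exp (-σ)) ^ n * u n ≤ F σ (x * Real.log n))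
    (h2 : ∀ (n : ℕ) σ, 0 < σ → F σ (x * Real.log n) ≤
      u n + 2 * (1 - Real.exp (-σ) / 2) ^ n * O (σ + Real.log 2)) :
    Tendsto (fun n : ℕ => u n / Real.log n) atTop (𝓝 (φ x)) := by
  have lp : ∀ᶠ n : ℕ in atTop, 0 < Real.log n := tlog.eventually (eventually_gt_atTop 0)
  have tF : ∀ t, 0 < t → Tendsto (fun n : ℕ => F (t * Real.log n) (x * Real.log n) / Real.log n)
      atTop (𝓝 (t * φ (x / t))) := fun t ht => by
    refine (((hF (x / t) (by positivity)).comp (tlog.const_mul_atTop ht)).const_mul t).congr' ?_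
    filter_upwards [lp] with n hn
    simp only [Function.comp]
    rw [show x / t * (t * Real.log n) = x * Real.log n by field_simp]
    field_simp
  have cont : Tendsto (fun t : ℝ => t * φ (x / t)) (𝓝 1) (𝓝 (φ x)) := by
    have : ContinuousAt (fun t : ℝ => t * φ (x / t)) 1 :=
      continuousAt_id.mul (hφ.continuousAt.comp (continuousAt_const.div continuousAt_id one_ne_zero))
    simpa using this.tendsto
  refine tendsto_order.2 ⟨fun a ha => ?_, fun a ha => ?_⟩
  · obtain ⟨t, ⟨t1, t0⟩, t2⟩ := ((((cont.eventually (lt_mem_nhds ha)).and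
      (lt_mem_nhds one_pos)).filter_mono (nhdsWithin_le_nhds (s := Set.Iio 1))).and
        self_mem_nhdsWithin).exists
    replace t2 : t < 1 := t2
    have s1 : Tendsto (fun n : ℕ => t * Real.log n + Real.log 2) atTop atTop :=
      tendsto_atTop_add_const_right _ _ (tlog.const_mul_atTop t0)
    have s2 : Tendsto (fun n : ℕ => O (t * Real.log n + Real.log 2) / Real.log n) atTop
        (𝓝 (c * (t + 0))) := by
      refine ((hO.comp s1).mul ((tendsto_const_nhds (x := t)).add
        ((tendsto_const_nhds (x := Real.log 2)).div_atTop tlog))).congr' ?_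
      filter_upwards [lp, s1.eventually (eventually_gt_atTop 0)] with n hn hn'
      simp only [Function.comp]
      field_simp
    have s3 : Tendsto (fun n : ℕ => (1 - Real.exp (-(t * Real.log n)) / 2) ^ n) atTop (𝓝 0) := by
      have q := Real.tendsto_exp_neg_atTop_nhds_zero.comp
        ((Real.tendsto_exp_atTop.comp (tlog.const_mul_atTop (sub_pos.2 t2))).atTop_div_const
          two_pos)
      refine squeeze_zero' ?_ ?_ q
      · filter_upwards [lp] with n hn
        have : Real.exp (-(t * Real.log n)) ≤ 1 := Real.exp_le_one_iff.2 (by nlinarith)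
        exact pow_nonneg (by linarith) n
      · filter_upwards [lp, nexp t] with n hn e
        have : Real.exp (-(t * Real.log n)) ≤ 1 := Real.exp_le_one_iff.2 (by nlinarith)
        simp only [Function.comp]
        rw [e, show -(n * Real.exp (-(t * Real.log n)) / 2) =
          n * -(Real.exp (-(t * Real.log n)) / 2) by ring, Real.exp_nat_mul]
        exact pow_le_pow_left₀ (by linarith) (by
          linarith [Real.add_one_le_exp (-(Real.exp (-(t * Real.log n)) / 2))]) n
    have s4 := (tF t t0).sub ((s3.const_mul 2).mul s2)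
    rw [mul_zero, zero_mul, sub_zero] at s4
    filter_upwards [s4.eventually (lt_mem_nhds t1), lp] with n hn hl
    refine hn.trans_le ?_
    rw [← mul_div_assoc, ← sub_div]
    exact div_le_div_of_nonneg_right (by linarith [h2 n _ (mul_pos t0 hl)]) hl.le
  · obtain ⟨t, t1, t2⟩ := (((cont.eventually (gt_mem_nhds ha)).filter_mono
      (nhdsWithin_le_nhds (s := Set.Ioi 1))).and self_mem_nhdsWithin).exists
    replace t2 : 1 < t := t2
    have t0 : 0 < t := by linarith
    have s3 : Tendsto (fun n : ℕ => (1 - Real.exp (-(t * Real.log n))) ^ n) atTop (𝓝 1) := by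
      have q := (Real.tendsto_exp_atBot.comp
        (tlog.const_mul_atTop_of_neg (sub_neg.2 t2))).const_sub 1
      rw [sub_zero] at q
      refine tendsto_of_tendsto_of_tendsto_of_le_of_le' q tendsto_const_nhds ?_ ?_
      · filter_upwards [lp, nexp t] with n hn e
        have : Real.exp (-(t * Real.log n)) ≤ 1 := Real.exp_le_one_iff.2 (by nlinarith)
        have b := one_add_mul_le_pow (a := -Real.exp (-(t * Real.log n))) (by linarith) n
        simp only [Function.comp]
        rw [e]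
        exact le_of_eq_of_le (by ring) (b.trans_eq (by rw [sub_eq_add_neg]))
      · filter_upwards [lp] with n hn
        have : Real.exp (-(t * Real.log n)) ≤ 1 := Real.exp_le_one_iff.2 (by nlinarith)
        exact pow_le_one₀ (by linarith) (by linarith [Real.exp_pos (-(t * Real.log n))])
    have s4 := (tF t t0).div s3 one_ne_zero
    rw [div_one] at s4
    filter_upwards [s4.eventually (gt_mem_nhds t1), lp, s3.eventually (lt_mem_nhds one_pos)]
      with n hn hl hp
    refine lt_of_le_of_lt ?_ hn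
    simp only [Pi.div_apply]
    rw [div_right_comm]
    refine div_le_div_of_nonneg_right ?_ hl.le
    rw [le_div_iff₀' hp]
    exact h1 n _ (mul_pos t0 hl)

end Pool.Agent.Lib.MP_153faa_pr.CS
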