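import Mathlib
import Pool.Agent.Lib.MP_153faa_pr.CS.Real
import Pool.Agent.Lib.MP_153faa_pr.CS.Mul
import Pool.Agent.Lib.MP_153faa_pr.GStep0

/-! The scaling profile of the critical moment at the critical point. -/

set_option autoImplicit false

open MeasureTheory Filter Topology
open scoped ENNReal NNReal

namespace Pool.Agent.Lib.MP_153faa_pr.CS

variable {d : ℕ}

theorem abel_up {l : ℝ} (h0 : 0 < l) (h1 : l < 1) {u a : ℕ → ℝ≥0∞} (hu : Monotone u)
    (ha : ∀ n, u n ≤ a n) (N : ℕ) : ∑' n, wt l n * u n ≤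
      u N + ENNReal.ofReal (2 * (1 - l / 2) ^ N) * ∑' n, wt (l / 2) n * a n := by
  have q0 : 0 ≤ 1 - l / 2 := by linarith
  have e : u N = ∑' n, wt l n * u N := by rw [ENNReal.tsum_mul_right, wt_tsum h0 h1, one_mul]
  rw [e, ← ENNReal.tsum_mul_left, ← ENNReal.tsum_add]
  refine ENNReal.tsum_le_tsum fun n => ?_
  rcases le_total n N with h | h
  · exact le_add_right (mul_le_mul_right (hu h) _)
  · refine le_add_left ?_
    rw [← mul_assoc]
    refine mul_le_mul' ?_ (ha n)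
    rw [wt, wt, ← ENNReal.ofReal_mul (by positivity)]
    refine ENNReal.ofReal_le_ofReal ?_
    have a1 : (1 - l) ^ n ≤ ((1 - l / 2) * (1 - l / 2)) ^ n :=
      pow_le_pow_left₀ (by linarith) (by nlinarith [sq_nonneg l]) n
    have a2 : (1 - l / 2) ^ n ≤ (1 - l / 2) ^ N := pow_le_pow_of_le_one q0 (by linarith) h
    rw [mul_pow] at a1
    have a3 := a1.trans (mul_le_mul_of_nonneg_right a2 (pow_nonneg q0 n))
    exact (mul_le_mul_of_nonneg_left a3 h0.le).trans_eq (by ring)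

theorem abel {u a : ℕ → ℝ≥0∞} (hu : Monotone u) (ha : ∀ n, u n ≤ a n)
    (fin : ∀ σ : ℝ, 0 < σ → ∑' n, wt (Real.exp (-σ)) n * a n ≠ ⊤) (N : ℕ) {σ : ℝ} (hσ : 0 < σ) :
    u N ≠ ⊤ ∧
    (1 - Real.exp (-σ)) ^ N * (u N).toReal ≤ (∑' n, wt (Real.exp (-σ)) n * u n).toReal ∧
    (∑' n, wt (Real.exp (-σ)) n * u n).toReal ≤ (u N).toReal + 2 * (1 - Real.exp (-σ) / 2) ^ N *
      (∑' n, wt (Real.exp (-(σ + Real.log 2))) n * a n).toReal := by
  have h0 := Real.exp_pos (-σ)
  have h1 := gbc_exp hσ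
  have f1 : ∑' n, wt (Real.exp (-σ)) n * u n ≠ ⊤ := ne_top_of_le_ne_top (fin σ hσ)
    (ENNReal.tsum_le_tsum fun n => mul_le_mul_right (ha n) _)
  have t := gres2_tail_le h0 h1 hu N
  have p0 : 0 < (1 - Real.exp (-σ)) ^ N := pow_pos (by linarith) N
  have f2 : u N ≠ ⊤ := by
    intro h
    rw [h, ENNReal.mul_top (by simpa using p0)] at t
    exact f1 (top_le_iff.1 t)
  have e : Real.exp (-(σ + Real.log 2)) = Real.exp (-σ) / 2 := by
    rw [neg_add, Real.exp_add, Real.exp_neg (Real.log 2), Real.exp_log two_pos, div_eq_mul_inv]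
  have f3 := fin (σ + Real.log 2) (by linarith [Real.log_pos one_lt_two])
  rw [e] at f3 ⊢
  have q0 : 0 ≤ 2 * (1 - Real.exp (-σ) / 2) ^ N :=
    mul_nonneg zero_le_two (pow_nonneg (by linarith) N)
  refine ⟨f2, ?_, ?_⟩
  · have := ENNReal.toReal_mono f1 t
    rwa [ENNReal.toReal_mul, ENNReal.toReal_ofReal p0.le] at this
  · have := gblin_real (X := ∑' n, wt (Real.exp (-σ)) n * u n) zero_le_one q0 f2 f3 (by
      rw [ENNReal.ofReal_one, one_mul]
      exact abel_up h0 h1 hu ha N)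
    rwa [one_mul] at this

theorem pt1 {p t M w : ℝ} (hp : 1 < p) (hp2 : p ≤ 2) (ht : 0 < t) (hM : 0 < M) (hw : 0 < w) :
    w ^ p ≤ (if t < w then w ^ p else 0) + th p M w + (t / M) ^ (2 - p) * w ^ p := by
  have a0 := th_nonneg hp hp2 hM.le hw.le
  have a1 : 0 ≤ (t / M) ^ (2 - p) * w ^ p := by positivity
  split_ifs with h
  · linarith
  · have a2 := pow_le_th hp hp2 hM hw.le
    have a3 : w ^ 2 * M ^ (p - 2) = (w / M) ^ (2 - p) * w ^ p := by
      rw [Real.div_rpow hw.le hM.le, div_mul_eq_mul_div, ← Real.rpow_add hw,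
        show p - 2 = -(2 - p) by ring, Real.rpow_neg hM.le, div_eq_mul_inv,
        show 2 - p + p = 2 by ring, Real.rpow_two]
    have a4 : (w / M) ^ (2 - p) ≤ (t / M) ^ (2 - p) :=
      Real.rpow_le_rpow (by positivity) (div_le_div_of_nonneg_right (not_lt.1 h) hM.le)
        (by linarith)
    have a5 := mul_le_mul_of_nonneg_right a4 (Real.rpow_nonneg hw.le p)
    linarith

theorem pt2 {p t M w : ℝ} (hp : 1 < p) (hp2 : p ≤ 2) (ht : 0 < t) (hM : 0 < M) (hw : 0 < w) :
    (if t < w then w ^ p else 0) + th p M w ≤ w ^ p + p * (M / t) ^ (p - 1) * w ^ p := by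
  have p0 : 0 < p := by linarith
  have a1 : 0 ≤ p * (M / t) ^ (p - 1) * w ^ p := by positivity
  split_ifs with h
  · have a2 := th_le_lin hp hp2 hM.le hw.le
    have a3 : M ^ (p - 1) * w = (M / w) ^ (p - 1) * w ^ p := by
      have : w ^ p = w ^ (p - 1) * w := by
        rw [← Real.rpow_add_one hw.ne']
        congr 1
        ring
      have h2 : 0 < w ^ (p - 1) := Real.rpow_pos_of_pos hw _
      rw [Real.div_rpow hM.le hw.le, this]
      field_simp
    have a4 : (M / w) ^ (p - 1) ≤ (M / t) ^ (p - 1) :=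
      Real.rpow_le_rpow (by positivity) (div_le_div_of_nonneg_left hM.le ht h.le) (by linarith)
    have a5 := mul_le_mul_of_nonneg_left
      (mul_le_mul_of_nonneg_right a4 (Real.rpow_nonneg hw.le p)) p0.le
    rw [mul_assoc, a3] at a2
    linarith
  · linarith [th_le_pow hp hM.le hw.le]

/-- Limits of the full and of the smoothly truncated critical moment at fixed times. -/
theorem limits (hd : 3 ≤ d) (ν : Measure ℝ) [IsProbabilityMeasure ν]
    (hν : ∀ β : ℝ, Integrable (fun t => Real.exp (β * t)) ν)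
    (hne : ∃ β : ℝ, 0 ≤ β ∧ freeEnergy d ν β < 0) : ∃ c : ℝ, 0 < c ∧
    (∀ n, Mom d (rho ν (betaC d ν)) (q0 d) n ≠ ⊤) ∧
    Tendsto (fun n : ℕ => (Mom d (rho ν (betaC d ν)) (q0 d) n).toReal / Real.log n) atTop (𝓝 c) ∧
    ∀ s : ℝ, 0 ≤ s → Tendsto (fun n : ℕ => ((T (rho ν (betaC d ν)))^[n]
      (fun g => lift (th (q0 d) (Real.exp (s * Real.log n))) (mass g))
        (dlt (0 : Site d))).toReal / Real.log n) atTop (𝓝 ((1 - Real.exp (-(4 * s / d))) * c)) := by
  obtain ⟨κ, M, ε₀, hκ, hε, h3, hG⟩ := step0 hd ν hν hne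
  obtain ⟨b, C₀, hb, hfin, hk, hlin⟩ := pack hd hν hne hκ hε h3 hG
  obtain ⟨C₁, -, hmul⟩ := b_mul (M := M) hd hκ
  have hGc : Good d κ M (rho ν (betaC d ν)) := hG _ ⟨by linarith, by linarith⟩
  generalize betaC d ν = β at *
  have hd1 : 1 ≤ d := by omega
  have d0 : (0 : ℝ) < d := by exact_mod_cast (by omega : 0 < d)
  have hp := gbc_q1 hd
  have hp2 := gbc_q2 hd
  have hm := hGc.1
  obtain ⟨r, hr⟩ : ∃ r : ℝ, r = 2 / (b * d / 2) := ⟨_, rfl⟩
  rw [← hr] at hk
  have r0 : 0 < r := by rw [hr]; positivity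
  have rb : ∀ s : ℝ, r * b * s = 4 * s / d := fun s => by rw [hr]; field_simp; ring
  have KO : ∀ σ : ℝ, 0 < σ →
      kk d (rho ν β) σ * (OO d (rho ν β) (q0 d) (Real.exp (-σ))).toReal = 1 := fun σ hσ =>
    gblin_KO hd1 hm hp.le (Real.exp_pos _) (gbc_exp hσ) (hfin σ hσ)
  have hk0 : Tendsto (kk d (rho ν β)) atTop (𝓝 0) := by
    refine (hk.div_atTop tendsto_id).congr' ?_
    filter_upwards [eventually_gt_atTop 0] with σ hσ
    simp only [id]
    field_simp
  have hO : Tendsto (fun σ => (OO d (rho ν β) (q0 d) (Real.exp (-σ))).toReal / σ) atTop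
      (𝓝 r⁻¹) := by
    refine (hk.inv₀ r0.ne').congr' ?_
    filter_upwards [eventually_gt_atTop 0] with σ hσ
    rw [mul_inv, ← eq_inv_of_mul_eq_one_right (KO σ hσ), div_eq_inv_mul]
  have sc : ∀ s : ℝ, 0 ≤ s → Tendsto (fun σ => kk d (rho ν β) σ *
      Br d (rho ν β) (q0 d) (Real.exp (-σ)) (s * σ)) atTop (𝓝 (1 - Real.exp (-(r * b * s)))) :=
    fun s hs => scale (B := fun σ y => Br d (rho ν β) (q0 d) (Real.exp (-σ)) y) (C₀ := C₀)
      (C₁ := C₁) hb r0 hk (fun σ => Kr_nonneg)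
      (by
        filter_upwards [eventually_gt_atTop 0] with σ hσ y
        refine ⟨mul_nonneg Kr_nonneg ENNReal.toReal_nonneg, le_of_le_of_eq ?_ (KO σ hσ)⟩
        exact mul_le_mul_of_nonneg_left (ENNReal.toReal_mono (hfin σ hσ)
          (HT_le_HH hp (Real.exp_pos y).le _)) Kr_nonneg)
      (fun η hη => by
        obtain ⟨C, hC, h⟩ := hmul η hη
        have hc : 0 < C⁻¹ := by positivity
        refine ⟨C, ?_⟩
        filter_upwards [eventually_gt_atTop 0, hk0.eventually (ge_mem_nhds hc),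
          Real.tendsto_exp_neg_atTop_nhds_zero.eventually (ge_mem_nhds hc)]
          with σ hσ a1 a2 y z hy hz h1
        exact h _ _ _ y z (gbc_ctx hd hGc hσ) a2 (hfin σ hσ) a1 hy hz h1)
      (fun η hη => by
        obtain ⟨D, σ₀, h1, h2⟩ := hlin η hη
        refine ⟨D, ?_⟩
        filter_upwards [eventually_gt_atTop 0, eventually_ge_atTop σ₀] with σ hσ a1 y hy a2
        have u1 := h1 σ a1 (hfin σ hσ) y hy a2
        have u2 := h2 σ a1 (hfin σ hσ) y hy a2
        rw [abs_le]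
        constructor <;> linarith) hs
  have mA := Mom_mono (d := d) hd1 hm hp.le
  have aA := fun (N : ℕ) (σ : ℝ) (hσ : 0 < σ) => abel mA (fun _ => le_rfl) hfin N hσ
  refine ⟨r⁻¹, inv_pos.2 r0, fun n => (aA n 1 one_pos).1,
    taub (F := fun σ _ => (OO d (rho ν β) (q0 d) (Real.exp (-σ))).toReal) (φ := fun _ => r⁻¹)
      le_rfl continuous_const hO (fun _ _ => hO) (fun n σ hσ => (aA n σ hσ).2.1)
      (fun n σ hσ => (aA n σ hσ).2.2), fun s hs => ?_⟩
  have aB := fun (y : ℝ) (N : ℕ) (σ : ℝ) (hσ : 0 < σ) => abel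
    (u := fun n => (T (rho ν β))^[n] (fun g => lift (th (q0 d) (Real.exp y)) (mass g))
      (dlt (0 : Site d)))
    (gres2_sub_mono hd1 (fun g hg => pay_sub hd1 hm (th_convex hp hp2 (Real.exp_pos y).le)
      (measurable_th _ _) (fun x hx => th_nonneg hp hp2 (Real.exp_pos y).le hx) hg) (nice_dlt 0))
    (a := Mom d (rho ν β) (q0 d))
    (fun n => T_iter_mono_nice hd1 (fun g hg => by
      rw [gblin_th hg, gblin_mq hg (by linarith)]
      exact ENNReal.ofReal_le_ofReal (th_le_pow hp (Real.exp_pos y).le (gblin_mr g))) n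
      (nice_dlt 0)) hfin N hσ
  rw [← rb]
  refine taub (F := fun σ y => Br d (rho ν β) (q0 d) (Real.exp (-σ)) y)
    (φ := fun s => (1 - Real.exp (-(r * b * s))) * r⁻¹) hs (by fun_prop) hO (fun s hs => ?_)
    (fun n σ hσ => (aB _ n σ hσ).2.1) (fun n σ hσ => (aB _ n σ hσ).2.2)
  refine ((sc s hs).mul hO).congr' ?_
  filter_upwards [eventually_gt_atTop 0] with σ hσ
  rw [← mul_div_assoc, mul_right_comm, KO σ hσ, one_mul]

/-- The two comparison inequalities, integrated. -/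
theorem compare (hd : 3 ≤ d) {ν : Measure ℝ} [IsProbabilityMeasure ν] (β : ℝ) (n : ℕ)
    (h : Mom d (rho ν β) (q0 d) n ≠ ⊤) {t M : ℝ} (ht : 0 < t) (hM : 0 < M) {A B G : ℝ}
    (hA : A = (Mom d (rho ν β) (q0 d) n).toReal)
    (hB : B = ((T (rho ν β))^[n] (fun g => lift (th (q0 d) M) (mass g)) (dlt (0 : Site d))).toReal)
    (hG : G = ∫ ω in {ω | t < W ν β n ω}, W ν β n ω ^ q0 d ∂envLaw d ν) :
    G ≤ A ∧ A ≤ G + B + (t / M) ^ (2 - q0 d) * A ∧
      G + B ≤ A + q0 d * (M / t) ^ (q0 d - 1) * A := by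
  have hd1 : 1 ≤ d := by omega
  have hp := gbc_q1 hd
  have hp2 := gbc_q2 hd
  obtain ⟨i1, e1⟩ := bridge_rpow (ν := ν) hd1 β n (q0 d) h
  have w0 := bridge_W_pos (ν := ν) hd1 β n
  have mW := bridge_W_meas (d := d) (ν := ν) β n
  have mS : MeasurableSet {ω | t < W (d := d) ν β n ω} := measurableSet_lt measurable_const mW
  have mT : AEStronglyMeasurable (fun ω => th (q0 d) M (W ν β n ω)) (envLaw d ν) :=
    ((measurable_th _ _).comp mW).aestronglyMeasurable
  have t0 : ∀ ω, 0 ≤ th (q0 d) M (W (d := d) ν β n ω) := fun ω => th_nonneg hp hp2 hM.le (w0 ω).le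
  have i2 : Integrable (fun ω => th (q0 d) M (W ν β n ω)) (envLaw d ν) :=
    i1.mono' mT (Eventually.of_forall fun ω => by
      rw [Real.norm_of_nonneg (t0 ω)]
      exact th_le_pow hp hM.le (w0 ω).le)
  have e2 : ∫ ω, th (q0 d) M (W ν β n ω) ∂envLaw d ν = B := by
    rw [hB, ← lintegral_W hd1 β n (measurable_lift (measurable_th _ _)),
      integral_eq_lintegral_of_nonneg_ae (Eventually.of_forall t0) mT]
    congr 1
    refine lintegral_congr fun ω => ?_
    rw [gres2_lift_of ENNReal.ofReal_ne_top, ENNReal.toReal_ofReal (w0 ω).le]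
  have i3 := i1.indicator mS
  have e3 : ∫ ω, Set.indicator {ω | t < W ν β n ω} (fun ω => W ν β n ω ^ q0 d) ω ∂envLaw d ν =
      G := by rw [hG, integral_indicator mS]
  rw [← hA] at e1
  refine ⟨?_, ?_, ?_⟩
  · rw [← e3, ← e1]
    exact integral_mono i3 i1 fun ω =>
      Set.indicator_le_self' (fun ω _ => Real.rpow_nonneg (w0 ω).le _) ω
  · have := integral_mono i1 ((i3.add i2).add (i1.const_mul ((t / M) ^ (2 - q0 d)))) fun ω => by
      simpa only [Pi.add_apply, Set.indicator_apply, Set.mem_ofPred_eq] using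
        pt1 hp hp2 ht hM (w0 ω)
    rwa [integral_add' (i3.add i2) (i1.const_mul _), integral_add' i3 i2, integral_const_mul,
      e1, e2, e3] at this
  · have := integral_mono (i3.add i2) (i1.add (i1.const_mul (q0 d * (M / t) ^ (q0 d - 1))))
      fun ω => by
        simpa only [Pi.add_apply, Set.indicator_apply, Set.mem_ofPred_eq] using
          pt2 hp hp2 ht hM (w0 ω)
    rwa [integral_add' i3 i2, integral_add' i1 (i1.const_mul _), integral_const_mul,
      e1, e2, e3] at this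

theorem small {a : ℝ} (ha : a < 0) {e : ℝ} (he : 0 < e) :
    Tendsto (fun n : ℕ => Real.exp (a * Real.log n) ^ e) atTop (𝓝 0) := by
  refine (Real.tendsto_exp_atBot.comp
    (tlog.const_mul_atTop_of_neg (mul_neg_of_neg_of_pos ha he))).congr fun n => ?_
  simp only [Function.comp]
  rw [← Real.exp_mul, mul_right_comm]

/-- The exponential profile. -/
theorem profile (hd : 3 ≤ d) (ν : Measure ℝ) [IsProbabilityMeasure ν]
    (hν : ∀ β : ℝ, Integrable (fun t => Real.exp (β * t)) ν)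
    (hne : ∃ β : ℝ, 0 ≤ β ∧ freeEnergy d ν β < 0) : ∃ c : ℝ, 0 < c ∧ ∀ x : ℝ, 0 ≤ x →
    Tendsto (fun n : ℕ => (∫ ω in {ω | (n : ℝ) ^ x < W ν (betaC d ν) n ω},
      W ν (betaC d ν) n ω ^ q0 d ∂envLaw d ν) / Real.log n) atTop
      (𝓝 (c * Real.exp (-(4 * x / d)))) := by
  obtain ⟨c, c0, fin, tA, tB⟩ := limits hd ν hν hne
  refine ⟨c, c0, fun x hx => ?_⟩
  generalize betaC d ν = β at *
  have hp := gbc_q1 hd
  have hp2 : q0 d < 2 := by
    have h3 : (3 : ℝ) ≤ d := by exact_mod_cast hd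
    have : (2 : ℝ) / d < 1 := (div_lt_one (by linarith)).2 (by linarith)
    unfold q0; linarith
  have lp : ∀ᶠ n : ℕ in atTop, 0 < Real.log n := tlog.eventually (eventually_gt_atTop 0)
  have ex : ∀ᶠ n : ℕ in atTop, (n : ℝ) ^ x = Real.exp (x * Real.log n) := by
    filter_upwards [eventually_gt_atTop 0] with n hn
    rw [Real.rpow_def_of_pos (by exact_mod_cast hn), mul_comm]
  have cmp := fun (n : ℕ) (s : ℝ) => compare hd β n (fin n) (Real.exp_pos (x * Real.log n))
    (Real.exp_pos (s * Real.log n)) rfl rfl rfl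
  have cont : Tendsto (fun s : ℝ => c * Real.exp (-(4 * s / d))) (𝓝 x)
      (𝓝 (c * Real.exp (-(4 * x / d)))) := Continuous.tendsto (by fun_prop) x
  refine tendsto_order.2 ⟨fun a ha => ?_, fun a ha => ?_⟩
  · obtain ⟨s, s1, s2⟩ := (((cont.eventually (lt_mem_nhds ha)).filter_mono
      (nhdsWithin_le_nhds (s := Set.Ioi x))).and self_mem_nhdsWithin).exists
    replace s2 : x < s := s2
    have t := (tA.sub (tB s (hx.trans s2.le))).sub
      ((small (sub_neg.2 s2) (sub_pos.2 hp2)).mul tA)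
    have e : c - (1 - Real.exp (-(4 * s / d))) * c - 0 * c = c * Real.exp (-(4 * s / d)) := by ring
    rw [e] at t
    filter_upwards [t.eventually (lt_mem_nhds s1), lp, ex] with n h1 h2 h3
    refine h1.trans_le ?_
    have := (cmp n s).2.1
    rw [← Real.exp_sub, ← sub_mul] at this
    rw [h3, ← mul_div_assoc, ← sub_div, ← sub_div]
    exact div_le_div_of_nonneg_right (by linarith) h2.le
  · rcases hx.eq_or_lt with rfl | hx0
    · simp only [mul_zero, zero_div, neg_zero, Real.exp_zero, mul_one] at ha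
      filter_upwards [tA.eventually (gt_mem_nhds ha), lp, ex] with n h1 h2 h3
      refine lt_of_le_of_lt ?_ h1
      rw [h3]
      exact div_le_div_of_nonneg_right (cmp n 0).1 h2.le
    obtain ⟨s, ⟨s1, s0⟩, s2⟩ := ((((cont.eventually (gt_mem_nhds ha)).and
      (lt_mem_nhds hx0)).filter_mono (nhdsWithin_le_nhds (s := Set.Iio x))).and
        self_mem_nhdsWithin).exists
    replace s2 : s < x := s2
    have t := (tA.sub (tB s s0.le)).add
      (((small (sub_neg.2 s2) (sub_pos.2 hp)).const_mul (q0 d)).mul tA)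
    have e : c - (1 - Real.exp (-(4 * s / d))) * c + q0 d * 0 * c =
      c * Real.exp (-(4 * s / d)) := by ring
    rw [e] at t
    filter_upwards [t.eventually (gt_mem_nhds s1), lp, ex] with n h1 h2 h3
    refine lt_of_le_of_lt ?_ h1
    have := (cmp n s).2.2
    rw [← Real.exp_sub, ← sub_mul] at this
    rw [h3, ← mul_div_assoc, ← sub_div, ← add_div]
    exact div_le_div_of_nonneg_right (by linarith) h2.le

end Pool.Agent.Lib.MP_153faa_pr.CS
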